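import Pool.Agent.K7.H79.ND.AlgN

/-!
# Almost all tuples of real algebraic numbers of bounded height are jointly normal up to a multiple of
`log H` digits

The real algebraic numbers of degree `d ≥ 2` are ordered by their height `H` (the largest absolute
value of a coefficient of the minimal polynomial over the integers); there are about `H ^ (d + 1)` of
them. Let `x = (x_1, …, x_n)` be a tuple of real algebraic numbers of degrees `d_1, …, d_n` and heights
at most `H`. The conjecture of the problem file says that all tuples `y_1, …, y_r` of algebraic numbers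
such that `1, y_1, …, y_r` are linearly independent over the rational numbers are normal: the digit
matrices of the tuple have the right frequencies. We show that for all `x`, except for a proportion
`H ^ (-c)`, this holds up to `A log H` digits, with an error `ε log H`, for all such tuples
`y_j = (f_(j,1)(x_1) + … + f_(j,n)(x_n)) / m`, where the `f_(j,t)` are integral polynomials of degree
`< d_t` and `m` and the coefficients of the `f_(j,t)` are at most `H ^ c`: for instance for the tuple
`x` itself, for the tuple of all powers `x_t ^ i`, `1 ≤ i < d_t`, and, when `n = 1`, for all tuples of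
elements of small height of the number field `ℚ(x_1)`. The rows of the digit matrices may be taken in
different bases and may start at different places. Here `A` is arbitrary, so that the digits are much
finer than the distances of the algebraic numbers of degree `d` and height at most `H`. The second part
is the central limit theorem for the numbers of occurrences of digit matrices in such tuples.

Proof. Let `l_1, …, l_r` be integers of polynomial size, sums of terms `h * (b_j) ^ n` with `n` at least
`a log H`, not all `0`. The largest nonconstant coefficient `V` of the polynomials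
`l_1 f_(1,t) + … + l_r f_(r,t)` is at least a power of `H`, by Cramer's rule for the Gram matrix of the
coefficients. It is attained for some `t`, and this polynomial is `V G(x_t)`, where the largest
coefficient of `G`, other than the constant one, is `1`. All coefficients of the minimal polynomial `P`
of `x_t` but the constant one are fixed. The roots are then smooth functions of the constant
coefficient, and so are the numbers `G(x)`; the derivative of order `K + 1` is
`N(x) / P'(x) ^ (2 K + 1)` with a polynomial `N` of degree `deg G - 1 + K (d - 2)` with a large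
coefficient. So these derivatives are as large as they should be outside of short intervals, and the
test of van der Corput of high order bounds the exponential sums of `V / m * G(x)`. Here the leading
coefficient of `G` may be very small or zero, so its degree is chosen according to the size of its
coefficients, and the roots of the polynomials `N` are avoided uniformly.
-/

set_option autoImplicit false

namespace Pool.Agent.Results.MP_c8ecb2_nt.AlgebraicTuples

open Filter Topology Polynomial
open Pool.Agent.K7.H79.ND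

/-- the real algebraic numbers of degree `d` and height at most `H`: the real roots of the
irreducible integral polynomials of degree `d` with all coefficients at most `H` in absolute value -/
def AlgNumbers (d H : ℕ) : Set ℝ :=
  {x | ∃ P : ℤ[X], Irreducible P ∧ P.natDegree = d ∧ (∀ i, |P.coeff i| ≤ H) ∧ aeval x P = 0}

/-- the tuples of real algebraic numbers of the degrees `d t` and heights at most `H` -/
def Tuples {n : ℕ} (d : Fin n → ℕ) (H : ℕ) : Set (Fin n → ℝ) := {x | ∀ t, x t ∈ AlgNumbers (d t) H}

/-- the tuple of the numbers `∑ t, f j t (x t) / m` -/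
noncomputable def values {r n : ℕ} (f : Fin r → Fin n → ℤ[X]) (m : ℕ) (x : Fin n → ℝ) : Fin r → ℝ :=
  fun j => (∑ t, aeval (x t) (f j t)) / m

/-- `1, y 1, …, y r` are linearly independent over the rational numbers -/
def Independent {r : ℕ} (y : Fin r → ℝ) : Prop :=
  ∀ (c₀ : ℚ) (c : Fin r → ℚ), c₀ + ∑ j, (c j : ℝ) * y j = 0 → c₀ = 0 ∧ ∀ j, c j = 0

/-- the degrees of the `f j t` are less than `d t`, their coefficients and `m ≥ 1` are at most `h` -/
def Small {r n : ℕ} (d : Fin n → ℕ) (h : ℝ) (f : Fin r → Fin n → ℤ[X]) (m : ℕ) : Prop :=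
  (∀ j t, (f j t).natDegree < d t) ∧ (∀ j t i, |((f j t).coeff i : ℝ)| ≤ h) ∧ 1 ≤ m ∧ (m : ℝ) ≤ h

/-- no nontrivial integral combination of the rows of `f` consists of constant polynomials -/
def Nonconstant {r n : ℕ} (f : Fin r → Fin n → ℤ[X]) : Prop :=
  ∀ l : Fin r → ℤ, l ≠ 0 → ∃ t, 1 ≤ (∑ j, C (l j) * f j t).natDegree

lemma indep {r n : ℕ} (f : Fin r → Fin n → ℤ[X]) {m : ℕ} (hm1 : 1 ≤ m) {x : Fin n → ℝ}
    (hind : Independent (values f m x)) (l : Fin r → ℤ) (hl : l ≠ 0) :
    ∃ t i, 1 ≤ i ∧ ∑ j, l j * (f j t).coeff i ≠ 0 := by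
  by_contra hno
  push Not at hno
  have hm : (m : ℝ) ≠ 0 := by
    have : (1 : ℝ) ≤ m := by exact_mod_cast hm1
    linarith
  have h1 : ∀ t, (∑ j, Polynomial.C (l j) * f j t : ℤ[X]) =
      Polynomial.C (∑ j, l j * (f j t).coeff 0) := by
    intro t
    ext i
    rw [Polynomial.finsetSum_coeff, Polynomial.coeff_C]
    simp only [Polynomial.coeff_C_mul]
    split_ifs with h2
    · rw [h2]
    · exact hno t i (by omega)
  have h2 : ∀ t, ∑ j, (l j : ℝ) * aeval (x t) (f j t) = ((∑ j, l j * (f j t).coeff 0 : ℤ) : ℝ) := by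
    intro t
    have h3 := congrArg (fun p : ℤ[X] => aeval (x t) p) (h1 t)
    simp only [map_sum, map_mul, aeval_C] at h3
    simpa using h3
  have h3 := hind (-((∑ t, ∑ j, l j * (f j t).coeff 0 : ℤ) : ℚ) / m) (fun j => (l j : ℚ)) (by
    push_cast at h2 ⊢
    simp only [← h2]
    have h4 : ∑ j, (l j : ℝ) * values f m x j = (∑ t, ∑ j, (l j : ℝ) * aeval (x t) (f j t)) / m := by
      unfold values
      rw [Finset.sum_comm, Finset.sum_div]
      refine Finset.sum_congr rfl fun j _ => ?_
      rw [← Finset.mul_sum, mul_div_assoc]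
    rw [h4]
    ring)
  apply hl
  funext j
  have h4 := h3.2 j
  exact_mod_cast h4

lemma nonconst {r n : ℕ} (f : Fin r → Fin n → ℤ[X]) (hf : Nonconstant f) (l : Fin r → ℤ)
    (hl : l ≠ 0) : ∃ t i, 1 ≤ i ∧ ∑ j, l j * (f j t).coeff i ≠ 0 := by
  obtain ⟨t, ht⟩ := hf l hl
  refine ⟨t, _, ht, ?_⟩
  have h1 : (∑ j, C (l j) * f j t : ℤ[X]) ≠ 0 := by
    intro h0
    rw [h0] at ht
    simp at ht
  have h2 := Polynomial.leadingCoeff_ne_zero.2 h1
  rw [Polynomial.leadingCoeff] at h2
  generalize (∑ j, C (l j) * f j t : ℤ[X]).natDegree = D at h2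
  rw [Polynomial.finsetSum_coeff] at h2
  simpa only [Polynomial.coeff_C_mul] using h2

open Classical in
/-- Let `d t ≥ 2` (`t < n`) be degrees, `r ≥ 1` and `A` a real number.

(1) Let `B`, `w` and `ε > 0` be given. There are `c > 0` and `H₀` such that for all `H ≥ H₀`, for all
tuples `x` of real algebraic numbers of the degrees `d t` and heights at most `H`, except for a
proportion of at most `H ^ (-c)` of them, the following holds. Let `f j t` be integral polynomials of
degree `< d t` with coefficients at most `H ^ c`, and `1 ≤ m ≤ H ^ c`, such that the numbers `1` and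
`y j = ∑ t, f j t (x t) / m` are linearly independent over the rational numbers, and let
`2 ≤ b j ≤ B`. Then `y` satisfies `NormalUpTo b w (A log H) (ε log H)`: all tuples of words of `k ≤ w`
digits, the `j`-th in base `b j`, occur in `y` with the right frequency in all the windows inside the
first `A log H` places, up to an error `ε log H`.

(2) Let `b j ≥ 2` be bases, `F` a function of the tuples of words of `w ≥ 1` digits with positive
`variance` and `a₀ > 0`. There is `c > 0` with the following property. Let polynomials `f H j t` and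
numbers `m H` be given for each `H`, with `Small d (H ^ c) (f H) (m H)` and `Nonconstant (f H)` for all
large `H`. Let `N H → ∞`, `a₀ log H ≤ s H j` and `s H j + N H ≤ A log H` for all `j` and all large `H`.
Then the proportion of the tuples `x` of real algebraic numbers of the degrees `d t` and heights at most
`H` for which the sum of `F` over the `i < N H`, at the tuples of the words of `w` digits after the
first `s H j + i` digits of the `j`-th number `∑ t, f H j t (x t) / m H`, is at most
`N H * mean + a * √(variance * N H)` tends, for every real `a`, to the value at `a` of the distribution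
function of the standard normal distribution.

(3) The number of tuples of real algebraic numbers of the degrees `d t` and heights at most `H` is
finite and at least `H ^ (∑ t, (d t + 1) - ε)` for large `H`. -/
theorem result {n : ℕ} (d : Fin n → ℕ) (hd : ∀ t, 2 ≤ d t) (r : ℕ) (hr : 1 ≤ r) (A : ℝ) :
    (∀ (B w : ℕ) (ε : ℝ), 0 < ε → ∃ c : ℝ, 0 < c ∧ ∃ H₀ : ℕ, ∀ H : ℕ, H₀ ≤ H →
      (({x ∈ Tuples d H | ¬ ∀ (f : Fin r → Fin n → ℤ[X]) (m : ℕ) (b : Fin r → ℕ),
          Small d ((H : ℝ) ^ c) f m → Independent (values f m x) → (∀ j, 2 ≤ b j) → (∀ j, b j ≤ B) →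
          NormalUpTo b w (A * Real.log H) (ε * Real.log H) (values f m x)}.ncard : ℕ) : ℝ) ≤
        (H : ℝ) ^ (-c) * ((Tuples d H).ncard : ℝ)) ∧
    (∀ b : Fin r → ℕ, (∀ j, 2 ≤ b j) → ∀ w : ℕ, 1 ≤ w → ∀ F : (Fin r → ℕ) → ℝ, 0 < variance b w F →
      ∀ a₀ : ℝ, 0 < a₀ → ∃ c : ℝ, 0 < c ∧ ∀ (f : ℕ → Fin r → Fin n → ℤ[X]) (m : ℕ → ℕ),
      (∀ᶠ H : ℕ in atTop, Small d ((H : ℝ) ^ c) (f H) (m H) ∧ Nonconstant (f H)) →
      ∀ (s : ℕ → Fin r → ℕ) (N : ℕ → ℕ), Tendsto N atTop atTop →
      (∀ᶠ H : ℕ in atTop, ∀ j, a₀ * Real.log H ≤ s H j ∧ (s H j : ℝ) + N H ≤ A * Real.log H) →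
      ∀ a : ℝ, Tendsto (fun H : ℕ => (({x ∈ Tuples d H | ∑ i ∈ Finset.range (N H),
          F (fun j => word (b j) w (s H j + i) (values (f H) (m H) x j)) - N H * mean b w F ≤
            a * √(variance b w F * N H)}.ncard : ℕ) : ℝ) / (Tuples d H).ncard) atTop
        (𝓝 ((ProbabilityTheory.gaussianReal 0 1).real (Set.Iic a)))) ∧
    (∀ ε : ℝ, 0 < ε → ∀ᶠ H : ℕ in atTop, (Tuples d H).Finite ∧
      (H : ℝ) ^ (∑ t, ((d t : ℝ) + 1) - ε) ≤ (Tuples d H).ncard) := by
  obtain ⟨q, rfl⟩ : ∃ q : Fin n → ℕ, d = fun t => q t + 2 :=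
    ⟨fun t => d t - 2, funext fun t => by have := hd t; simp only; omega⟩
  have hfin : ∀ t H, (AlgNumbers (q t + 2) H).Finite := fun t H => Pool.Agent.Y933.KG.Alg_finite (q t) H
  obtain ⟨S, hS⟩ : ∃ S : ℕ → Fin n → Finset ℝ, S = fun H t => (hfin t H).toFinset := ⟨_, rfl⟩
  have hmem : ∀ H t x, x ∈ S H t ↔ x ∈ Pool.Agent.Y933.KG.Alg (q t + 2) H := fun H t x => by
    rw [hS, Set.Finite.mem_toFinset]
    rfl
  have hT : ∀ H, (Tuples (fun t => q t + 2) H) = (Fintype.piFinset (S H) : Finset (Fin n → ℝ)) := by
    intro H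
    ext x
    rw [Finset.mem_coe, Fintype.mem_piFinset]
    exact forall_congr' fun t => (hmem H t (x t)).symm
  have hTc : ∀ H, (Tuples (fun t => q t + 2) H).ncard = (Fintype.piFinset (S H)).card := fun H => by
    rw [hT, Set.ncard_coe_finset]
  have hne : ∀ᶠ H : ℕ in atTop, ∀ t, (S H t).Nonempty := by
    rw [Filter.eventually_all]
    intro t
    have h1 := Pool.Agent.Y933.KG.Alg_many (q t) 1 one_pos
    filter_upwards [h1, eventually_ge_atTop 1] with H hH hH1
    have hHp : (0 : ℝ) < H := by exact_mod_cast hH1
    have h2 : 0 < (Pool.Agent.Y933.KG.Alg (q t + 2) H).ncard := by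
      have h3 : (0 : ℝ) < (H : ℝ) ^ ((q t : ℝ) + 3 - 1) := by positivity
      exact_mod_cast h3.trans_le hH
    obtain ⟨x, hx⟩ := Set.nonempty_of_ncard_ne_zero h2.ne'
    exact ⟨x, (hmem H t x).2 hx⟩
  refine ⟨?_, ?_, ?_⟩
  · intro B w ε hε
    obtain ⟨c, hc, H1, hH1⟩ := alg_normal q hr B w A ε hε
    refine ⟨c, hc, H1, fun H hH => ?_⟩
    have key := hH1 H hH (S H) (hmem H)
    rw [hTc]
    refine le_trans ?_ (key.trans (le_of_eq (mul_comm _ _)))
    rw [Nat.cast_le, ← Set.ncard_coe_finset]
    refine Set.ncard_le_ncard ?_ (Finset.finite_toSet _)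
    rintro x ⟨hx, hbad⟩
    rw [Finset.mem_coe, Finset.mem_filter]
    refine ⟨?_, fun hcon => hbad ?_⟩
    · rw [hT] at hx
      exact hx
    · intro f m b hf hind hb hbB
      obtain ⟨hf1, hf2, hm1, hm2⟩ := hf
      exact hcon f m b (fun j t => Nat.le_of_lt_succ (hf1 j t)) hf2 hm1 hm2
        (indep f hm1 hind) hb hbB
  · intro b hb w hw F hF a₀ ha₀
    have hlog2 : 0 < Real.log 2 := Real.log_pos (by norm_num)
    obtain ⟨c, hc⟩ : ∃ c : ℝ, c = a₀ * Real.log 2 / (4 * (2 * r + 2)) := ⟨_, rfl⟩
    have hc0 : 0 < c := by rw [hc]; positivity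
    have hca : c * (2 * r + 2) * 4 ≤ a₀ * Real.log 2 := by
      rw [hc]
      have : (0 : ℝ) < 4 * (2 * r + 2) := by positivity
      rw [div_mul_eq_mul_div, div_mul_eq_mul_div, div_le_iff₀ this]
      nlinarith
    refine ⟨c, hc0, fun f m hfm s N hN hsN a => ?_⟩
    have h1 := count_clt (ι := Fin n → ℝ) hr (fun j => by have := hb j; omega) (SAlg_prob n r q c)
      (good_algF q hb ha₀ hc0 hca) hw F hF A (fun H => Fintype.piFinset (S H))
      (fun H => values (f H) (m H)) ?_ s N hN (hsN.mono fun H h j => (h j).1)
      (hsN.mono fun H h j => (h j).2) a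
    · refine h1.congr fun H => ?_
      rw [hTc]
      congr 2
      rw [← Set.ncard_coe_finset]
      congr 1
      ext x
      rw [Finset.mem_coe, Finset.mem_filter, ← Finset.mem_coe, ← hT]
      rfl
    · filter_upwards [hfm, hne] with H hH hSne
      obtain ⟨⟨hf1, hf2, hm1, hm2⟩, hnc⟩ := hH
      exact ⟨S H, f H, m H, hmem H, hSne, fun j t => Nat.le_of_lt_succ (hf1 j t), hf2, hm1, hm2,
        nonconst (f H) hnc, rfl⟩
  · intro ε hε
    have h1 : ∀ᶠ H : ℕ in atTop, ∀ t, (H : ℝ) ^ ((q t : ℝ) + 3 - ε / (n + 1)) ≤
        ((Pool.Agent.Y933.KG.Alg (q t + 2) H).ncard : ℝ) := by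
      rw [Filter.eventually_all]
      intro t
      exact Pool.Agent.Y933.KG.Alg_many (q t) (ε / (n + 1)) (by positivity)
    filter_upwards [h1, eventually_ge_atTop 1] with H hH hH1
    have hHR : (1 : ℝ) ≤ H := by exact_mod_cast hH1
    have hHp : (0 : ℝ) < H := by linarith
    refine ⟨?_, ?_⟩
    · rw [hT]
      exact Finset.finite_toSet _
    · rw [hTc, Fintype.card_piFinset]
      push_cast
      have h2 : ∀ t, (H : ℝ) ^ ((q t : ℝ) + 3 - ε / (n + 1)) ≤ ((S H t).card : ℝ) := by
        intro t
        refine (hH t).trans (le_of_eq ?_)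
        rw [← Set.ncard_coe_finset]
        congr 2
        ext x
        rw [Finset.mem_coe]
        exact (hmem H t x).symm
      calc (H : ℝ) ^ (∑ t, (((q t : ℝ) + 2) + 1) - ε) ≤
            (H : ℝ) ^ (∑ t, ((q t : ℝ) + 3 - ε / (n + 1))) := by
            apply Real.rpow_le_rpow_of_exponent_le hHR
            rw [Finset.sum_sub_distrib, Finset.sum_const, Finset.card_univ, Fintype.card_fin,
              nsmul_eq_mul]
            have h3 : (n : ℝ) * (ε / (n + 1)) ≤ ε := by
              rw [mul_div_assoc', div_le_iff₀ (by positivity)]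
              nlinarith
            have h4 : ∑ t, (((q t : ℝ) + 2) + 1) = ∑ t, ((q t : ℝ) + 3) :=
              Finset.sum_congr rfl fun t _ => by ring
            rw [h4]
            linarith
        _ = ∏ t, (H : ℝ) ^ ((q t : ℝ) + 3 - ε / (n + 1)) := Real.rpow_sum_of_pos hHp _ _
        _ ≤ ∏ t, ((S H t).card : ℝ) :=
            Finset.prod_le_prod (fun t _ => by positivity) fun t _ => h2 t

end Pool.Agent.Results.MP_c8ecb2_nt.AlgebraicTuples
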