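import Pool.Agent.K7.H63.MR.VecAlg
import Pool.Agent.K7.H63.MR.ChgAlg
import Pool.Agent.K7.H63.MR.Val

/-!
# Digit matrices in almost all tuples `(m_1 α + y_1, …, m_R α + y_R)`

No hypothesis is assumed.  Let `α` be a real algebraic irrational number, `b ≥ 2`, `R`, `l` natural
numbers and `ε > 0`.  There are `c > 0`, `M₀` and `N₀` such that for all `M ≥ M₀`, all `N ≥ N₀` and all
real numbers `y_1, …, y_R` the following holds for all but at most `ε M ^ R` of the integer vectors
`m` in `[1, M] ^ R`: every `R × l` matrix of digits occurs at `c (log N) ^ 3 / (log log N) ^ 5` or more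
of the places `1, …, N` in the base `b` expansions of the tuple `(m_1 α + y_1, …, m_R α + y_R)`.

If `1, α, y_1, …, y_R` are linearly independent algebraic numbers, these are tuples to which the
conjecture of joint normality applies.
-/

set_option autoImplicit false

open Finset

namespace Pool.Agent.Results.MP_c8ecb2_nt.MatricesInAffineImages

/-- the `k`-th digit of `x` after the point in base `b` -/
noncomputable def digit (b : ℕ) (x : ℝ) (k : ℕ) : ℤ := ⌊x * (b : ℝ) ^ k⌋ % b

/-- `A_b(D, N, ξ)`: the number of the places `i` in `[1, N]` such that for every row `j` the digits of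
`ξ j` at the places `i, i + 1, …, i + l - 1` after the point are `D j 0, D j 1, …, D j (l - 1)` -/
noncomputable def occurrences {R l : ℕ} (b : ℕ) (D : Fin R → Fin l → Fin b) (N : ℕ)
    (ξ : Fin R → ℝ) : ℕ :=
  ((Icc 1 N).filter (fun i => ∀ (j : Fin R) (t : Fin l), digit b (ξ j) (i + t) = (D j t : ℕ))).card

/-- The result. -/
theorem result (b : ℕ) (hb : 2 ≤ b) (R l : ℕ) (α : ℝ) (halg : IsAlgebraic ℚ α)
    (hirr : Irrational α) (ε : ℝ) (hε : 0 < ε) :
    ∃ c : ℝ, 0 < c ∧ ∃ M₀ N₀ : ℕ, ∀ M N : ℕ, M₀ ≤ M → N₀ ≤ N → ∀ y : Fin R → ℝ,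
      (1 - ε) * (M : ℝ) ^ R ≤
        (((Fintype.piFinset fun _ : Fin R => Icc 1 M).filter (fun m : Fin R → ℕ =>
          ∀ D : Fin R → Fin l → Fin b, c * (Real.log N ^ 3 / Real.log (Real.log N) ^ 5) ≤
            occurrences b D N (fun j => m j * α + y j))).card : ℝ) := by
  classical
  set F : ℕ → ℝ := fun N => Real.log N ^ 3 / Real.log (Real.log N) ^ 5 with hF
  -- the word of a row
  set w : (Fin R → Fin l → Fin b) → Fin R → ℕ → ℕ := fun D j t =>
    if h : t < l then (D j ⟨t, h⟩ : ℕ) else 0 with hw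
  have hwlt : ∀ D j, ∀ t < l, w D j t < b := by
    intro D j t ht
    simp only [hw, dif_pos ht]
    exact (D j ⟨t, ht⟩).2
  have hbpos : 0 < b := by omega
  set K : ℕ := Fintype.card (Fin R → Fin l → Fin b) with hK
  have hKpos : 0 < K := by
    have : Nonempty (Fin R → Fin l → Fin b) := ⟨fun _ _ => ⟨0, hbpos⟩⟩
    exact Fintype.card_pos
  have hKR : (0 : ℝ) < K := by exact_mod_cast hKpos
  have hmain : ∀ D : Fin R → Fin l → Fin b, ∃ c : ℝ, 0 < c ∧ ∃ M₀ n₀ : ℕ, ∀ M n : ℕ, M₀ ≤ M →
      n₀ ≤ n → ∀ y : Fin R → ℝ,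
      (((Fintype.piFinset fun _ : Fin R => range M).filter (fun m : Fin R → ℕ =>
        (Pool.Agent.K7.H63.MR.occV b l (fun j => Pool.Agent.K7.H63.MR.val b (w D j) l)
          (fun j => m j * α + y j) n : ℝ) < c * F n)).card : ℝ) ≤ ε / K * (M : ℝ) ^ R := by
    intro D
    exact Pool.Agent.K7.H63.MR.vec_almost hb l _
      (fun j => Pool.Agent.K7.H63.MR.val_lt (hwlt D j) l le_rfl) α F
      Pool.Agent.K7.H63.MR.tend35
      (fun Q hQ => Pool.Agent.K7.H63.MR.changes_alg hb halg hirr hQ) (ε / K) (by positivity)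
  choose c hc M₀ n₀ H using hmain
  obtain ⟨c', hc', hc'le⟩ : ∃ c' : ℝ, 0 < c' ∧ ∀ D, c' ≤ c D := by
    have hne : (univ : Finset (Fin R → Fin l → Fin b)).Nonempty := ⟨fun _ _ => ⟨0, hbpos⟩, mem_univ _⟩
    refine ⟨univ.inf' hne c, ?_, fun D => inf'_le _ (mem_univ D)⟩
    rw [lt_inf'_iff]
    exact fun D _ => hc D
  obtain ⟨n₁, hn₁⟩ := Filter.eventually_atTop.1
    (Pool.Agent.K7.H63.MR.tend35.eventually_ge_atTop (0 : ℝ))
  refine ⟨c', hc', ∑ D, M₀ D, n₁ + ∑ D, n₀ D, ?_⟩
  intro M n hM hn y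
  have hM' : ∀ D, M₀ D ≤ M := fun D =>
    (single_le_sum (f := M₀) (fun _ _ => Nat.zero_le _) (mem_univ D)).trans hM
  have hn' : ∀ D, n₀ D ≤ n := fun D =>
    (single_le_sum (f := n₀) (fun _ _ => Nat.zero_le _) (mem_univ D)).trans (by omega)
  have hFn : 0 ≤ F n := hn₁ n (by omega)
  set G := (Fintype.piFinset fun _ : Fin R => Icc 1 M).filter (fun m : Fin R → ℕ =>
          ∀ D : Fin R → Fin l → Fin b, c' * (Real.log n ^ 3 / Real.log (Real.log n) ^ 5) ≤
            occurrences b D n (fun j => m j * α + y j)) with hG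
  set Bd : (Fin R → Fin l → Fin b) → Finset (Fin R → ℕ) := fun D =>
    (Fintype.piFinset fun _ : Fin R => range M).filter (fun m : Fin R → ℕ =>
        (Pool.Agent.K7.H63.MR.occV b l (fun j => Pool.Agent.K7.H63.MR.val b (w D j) l)
          (fun j => m j * α + (y j + α)) n : ℝ) < c D * F n) with hBd
  have hBdcard : ∀ D, ((Bd D).card : ℝ) ≤ ε / K * (M : ℝ) ^ R := fun D =>
    H D M n (hM' D) (hn' D) (fun j => y j + α)
  have hsub : (Fintype.piFinset fun _ : Fin R => Icc 1 M) ⊆
      G ∪ univ.biUnion (fun D => (Bd D).image (fun m j => m j + 1)) := by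
    intro m hm
    rw [mem_union]
    by_contra hcon
    push Not at hcon
    obtain ⟨h1, h2⟩ := hcon
    apply h1
    rw [hG, mem_filter]
    refine ⟨hm, fun D => ?_⟩
    rw [Fintype.mem_piFinset] at hm
    by_contra h3
    push Not at h3
    apply h2
    rw [mem_biUnion]
    refine ⟨D, mem_univ D, ?_⟩
    rw [mem_image]
    have hm1 : ∀ j, m j - 1 + 1 = m j := fun j => by
      have := mem_Icc.1 (hm j)
      omega
    refine ⟨fun j => m j - 1, ?_, funext hm1⟩
    rw [hBd, mem_filter, Fintype.mem_piFinset]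
    refine ⟨fun j => mem_range.2 (by have := mem_Icc.1 (hm j); omega), ?_⟩
    have e1 : (fun j => (((m j - 1 : ℕ)) : ℝ) * α + (y j + α)) = fun j => (m j : ℝ) * α + y j := by
      funext j
      have : (((m j - 1 : ℕ)) : ℝ) + 1 = m j := by exact_mod_cast hm1 j
      rw [← this]
      ring
    rw [e1]
    have h4 : Pool.Agent.K7.H63.MR.occV b l (fun j => Pool.Agent.K7.H63.MR.val b (w D j) l)
        (fun j => (m j : ℝ) * α + y j) n ≤ occurrences b D n (fun j => m j * α + y j) := by
      unfold Pool.Agent.K7.H63.MR.occV occurrences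
      refine card_le_card_of_injOn (fun k => k + 1) ?_ ?_
      · intro k hk
        rw [mem_coe, mem_filter, mem_range] at hk
        simp only [mem_coe, mem_filter, mem_Icc]
        refine ⟨⟨by omega, by omega⟩, fun j t => ?_⟩
        have h5 := Pool.Agent.K7.H63.MR.digits_of_val hb (hwlt D j) _ k (hk.2 j) t t.2
        have h6 : w D j t = (D j t : ℕ) := by
          simp only [hw, dif_pos t.2]
        rw [h6] at h5
        exact h5
      · intro u _ v _ h
        simpa using h
    have h5 : (Pool.Agent.K7.H63.MR.occV b l (fun j => Pool.Agent.K7.H63.MR.val b (w D j) l)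
        (fun j => (m j : ℝ) * α + y j) n : ℝ) ≤ occurrences b D n (fun j => m j * α + y j) := by
      exact_mod_cast h4
    have h6 : c' * F n ≤ c D * F n := mul_le_mul_of_nonneg_right (hc'le D) hFn
    exact lt_of_le_of_lt h5 (lt_of_lt_of_le h3 h6)
  have hcard := (card_le_card hsub).trans (card_union_le _ _)
  have hcard2 : (univ.biUnion (fun D => (Bd D).image (fun (m : Fin R → ℕ) j => m j + 1))).card ≤
      ∑ D, (Bd D).card :=
    card_biUnion_le.trans (sum_le_sum fun D _ => card_image_le)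
  rw [Fintype.card_piFinset_const, Nat.card_Icc, Nat.add_sub_cancel] at hcard
  have h1 : (M : ℝ) ^ R ≤ G.card + ∑ D, ((Bd D).card : ℝ) := by
    have : M ^ R ≤ G.card + ∑ D, (Bd D).card := by omega
    exact_mod_cast this
  have h2 : ∑ D : Fin R → Fin l → Fin b, ((Bd D).card : ℝ) ≤ ε * (M : ℝ) ^ R := by
    calc ∑ D, ((Bd D).card : ℝ) ≤ ∑ _D : Fin R → Fin l → Fin b, ε / K * (M : ℝ) ^ R :=
          sum_le_sum fun D _ => hBdcard D
      _ = K * (ε / K * (M : ℝ) ^ R) := by rw [sum_const, card_univ, nsmul_eq_mul]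
      _ = ε * (M : ℝ) ^ R := by field_simp
  linarith

end Pool.Agent.Results.MP_c8ecb2_nt.MatricesInAffineImages
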