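import Pool.Agent.K7.H63.LN.Fin
import Pool.Agent.K7.H63.LN.Poly
import Pool.Agent.K7.H63.MR.ChgAlg

/-!
# Equidistributed digit matrices of `(f_1(m) α + y_1, …, f_R(m) α + y_R)` for polynomials `f_j`

No hypothesis is assumed.  Let `α` be a real algebraic irrational number, `b ≥ 2`, and let `f_1, …, f_R` be
polynomials with integer coefficients such that `1, f_1, …, f_R` are linearly independent; for instance
`f_j = X ^ j`, or `R = 1` and `f_1 = X`.  Given `ε > 0` there are an integer `Q ≥ 1`, `c > 0` and `J₀` such that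
for every `J ≥ J₀` the following holds.  Cut the places after the point into blocks of `J` places, and let `𝒫` be
the union of the blocks with the property that the digits of `Q α` at the next `2 J` places are neither all `0` nor
all `b - 1`.  Then `𝒫` has at least `c (log N) ^ 3 / (log log N) ^ 5` elements up to `N` for large `N`; and for
large `M`, `N` and all real `y_1, …, y_R`, for all but at most `ε M` of the integers `m ≤ M` ALL the `R × l`
matrices of digits stand with their right frequency `b ^ (- R l)`, up to `ε`, at the places of `𝒫` up to `N` in the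
expansions of `f_1(m) α + y_1, …, f_R(m) α + y_R`.

So almost all these tuples are nearly normal along the set `𝒫` of places, which does not depend on `m` and on `y`,
and outside of `𝒫` the digits of `Q α` are constant over long stretches.

Proof.  If some digit of `Q α` in the two blocks after a block `B` is not `0`, and some is not `b - 1`, then `Q b ^ p α`
is at least `b ^ (-3 J)` from the integers for all the places `p` in `B`.  If `H b ^ p α + H' b ^ p' α` and
`H b ^ p α + H' b ^ p'' α` are both very near to integers, then so is `H' (b ^ (p'' - p') - 1) b ^ p' α`; if `Q` is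
a common multiple of the numbers `H' (b ^ g - 1)` with small `H'` and `g` this shows that `p'' - p'` is large.
So there are few resonances between the places of `B`, and by a uniform version of the theorem of Weyl the digit
matrices at most pairs of places of `B` are nearly independent for random `m`.  The second moment of the
number of occurrences in `B` is therefore small.  The number of the places in `𝒫` is bounded below by the number
of changes of digits of `Q α`, and for this the starting library has the bound `c (log N) ^ 3 / (log log N) ^ 5`.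
-/

set_option autoImplicit false

open Finset Polynomial

namespace Pool.Agent.Results.MP_c8ecb2_nt.PolynomialMultiples

/-- the `k`-th digit of `x` after the point in base `b` -/
noncomputable def digit (b : ℕ) (x : ℝ) (k : ℕ) : ℤ := ⌊x * (b : ℝ) ^ k⌋ % b

/-- The digits of `Q α` at the `2 J` places `J (t + 1) + 1, …, J (t + 3)`, which follow the block of the `J` places
`J t + 1, …, J t + J`, are neither all `0` nor all `b - 1`. -/
def Lively (b Q J : ℕ) (α : ℝ) (t : ℕ) : Prop :=
  (∃ i, J * (t + 1) < i ∧ i ≤ J * (t + 3) ∧ digit b (Q * α) i ≠ 0) ∧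
    ∃ i, J * (t + 1) < i ∧ i ≤ J * (t + 3) ∧ digit b (Q * α) i ≠ b - 1

open Classical in
/-- the places `i` in `[1, N]` which lie in blocks `J t + 1, …, J t + J` as above -/
noncomputable def places (b Q J : ℕ) (α : ℝ) (N : ℕ) : Finset ℕ :=
  (Icc 1 N).filter (fun i => Lively b Q J α ((i - 1) / J))

/-- the number of the places `i` in the set `P` such that for every row `j` the digits of `ξ j` at the places
`i, i + 1, …, i + l - 1` after the point are `D j 0, D j 1, …, D j (l - 1)` -/
noncomputable def occurrences {R l : ℕ} (b : ℕ) (D : Fin R → Fin l → Fin b) (P : Finset ℕ) (ξ : Fin R → ℝ) : ℕ :=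
  (P.filter (fun i => ∀ (j : Fin R) (t : Fin l), digit b (ξ j) (i + t) = (D j t : ℕ))).card

lemma image_Pl (b Q J : ℕ) (α : ℝ) (N : ℕ) :
    (Pool.Agent.K7.H63.LN.Pl b Q J α N).image (fun p => p + 1) = places b Q J α N := by
  classical
  unfold Pool.Agent.K7.H63.LN.Pl places
  ext i
  rw [mem_image, mem_filter, mem_Icc]
  constructor
  · rintro ⟨p, hp, rfl⟩
    rw [mem_filter, mem_range] at hp
    refine ⟨⟨by omega, by omega⟩, ?_⟩
    rw [Nat.add_sub_cancel]
    exact hp.2
  · rintro ⟨⟨h1, h2⟩, h3⟩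
    refine ⟨i - 1, ?_, by omega⟩
    rw [mem_filter, mem_range]
    exact ⟨by omega, h3⟩

lemma card_places (b Q J : ℕ) (α : ℝ) (N : ℕ) :
    (places b Q J α N).card = (Pool.Agent.K7.H63.LN.Pl b Q J α N).card := by
  rw [← image_Pl]
  exact card_image_of_injective _ (fun a a' h => by simpa using h)

lemma occurrences_places {R l : ℕ} (b Q J : ℕ) (α : ℝ) (N : ℕ) (D : Fin R → Fin l → Fin b) (ξ : Fin R → ℝ) :
    occurrences b D (places b Q J α N) ξ =
      Pool.Agent.K7.H63.LN.occ b D (Pool.Agent.K7.H63.LN.Pl b Q J α N) ξ := by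
  unfold occurrences Pool.Agent.K7.H63.LN.occ
  rw [← image_Pl, filter_image, card_image_of_injective _ (fun a a' h => by simpa using h)]
  rfl

/-- The result. -/
theorem result (b : ℕ) (hb : 2 ≤ b) (R l : ℕ) (f : Fin R → ℤ[X])
    (hf : ∀ h : Fin R → ℤ, h ≠ 0 → (∑ j, h j • f j).natDegree ≠ 0) (α : ℝ) (halg : IsAlgebraic ℚ α)
    (hirr : Irrational α) (ε : ℝ) (hε : 0 < ε) :
    ∃ Q : ℕ, 1 ≤ Q ∧ ∃ c : ℝ, 0 < c ∧ ∃ J₀ : ℕ, ∀ J : ℕ, J₀ ≤ J → ∃ M₀ N₀ : ℕ, ∀ M N : ℕ, M₀ ≤ M → N₀ ≤ N →
      ∀ y : Fin R → ℝ,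
        c * (Real.log N ^ 3 / Real.log (Real.log N) ^ 5) ≤ (places b Q J α N).card ∧
        (1 - ε) * M ≤ (((Icc 1 M).filter (fun m : ℕ => ∀ D : Fin R → Fin l → Fin b,
          |(occurrences b D (places b Q J α N) (fun j => ((f j).eval (m : ℤ) : ℤ) * α + y j) : ℝ) -
            (places b Q J α N).card / ((b : ℝ) ^ l) ^ R| ≤ ε * (places b Q J α N).card)).card : ℝ) := by
  classical
  obtain ⟨Q, hQ, c, hc, J₀, H⟩ := Pool.Agent.K7.H63.LN.final hb (fun M => Icc 1 M)
    (fun (m : ℕ) (j : Fin R) => (f j).eval (m : ℤ)) ⟨1, fun M hM => ⟨1, mem_Icc.2 ⟨le_rfl, hM⟩⟩⟩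
    (Pool.Agent.K7.H63.LN.uw_poly f fun h hh => Nat.one_le_iff_ne_zero.2 (hf h hh)) l α _
    Pool.Agent.K7.H63.MR.tend35 (fun Q hQ => Pool.Agent.K7.H63.MR.changes_alg hb halg hirr hQ) ε hε
  refine ⟨Q, hQ, c, hc, J₀, fun J hJ => ?_⟩
  obtain ⟨M₀, N₀, H⟩ := H J hJ
  refine ⟨M₀, N₀, fun M N hM hN y => ?_⟩
  obtain ⟨h1, h2⟩ := H M N hM hN y
  rw [card_places]
  refine ⟨h1, ?_⟩
  simp only [occurrences_places]
  have h3 := card_filter_add_card_filter_not (s := Icc 1 M) (fun m : ℕ => ∃ D : Fin R → Fin l → Fin b,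
        ε * (Pool.Agent.K7.H63.LN.Pl b Q J α N).card <
        |(Pool.Agent.K7.H63.LN.occ b D (Pool.Agent.K7.H63.LN.Pl b Q J α N)
          (fun j => ((f j).eval (m : ℤ) : ℤ) * α + y j) : ℝ) -
          (Pool.Agent.K7.H63.LN.Pl b Q J α N).card / ((b : ℝ) ^ l) ^ R|)
  rw [Nat.card_Icc, Nat.add_sub_cancel] at h3 h2
  have h4 : (M : ℝ) = (((Icc 1 M).filter (fun m : ℕ => ∃ D : Fin R → Fin l → Fin b,
        ε * (Pool.Agent.K7.H63.LN.Pl b Q J α N).card <
        |(Pool.Agent.K7.H63.LN.occ b D (Pool.Agent.K7.H63.LN.Pl b Q J α N)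
          (fun j => ((f j).eval (m : ℤ) : ℤ) * α + y j) : ℝ) -
          (Pool.Agent.K7.H63.LN.Pl b Q J α N).card / ((b : ℝ) ^ l) ^ R|)).card : ℝ) +
      (((Icc 1 M).filter (fun m : ℕ => ¬ ∃ D : Fin R → Fin l → Fin b,
        ε * (Pool.Agent.K7.H63.LN.Pl b Q J α N).card <
        |(Pool.Agent.K7.H63.LN.occ b D (Pool.Agent.K7.H63.LN.Pl b Q J α N)
          (fun j => ((f j).eval (m : ℤ) : ℤ) * α + y j) : ℝ) -
          (Pool.Agent.K7.H63.LN.Pl b Q J α N).card / ((b : ℝ) ^ l) ^ R|)).card : ℝ) := by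
    exact_mod_cast h3.symm
  have h5 : (1 - ε) * (M : ℝ) ≤ (((Icc 1 M).filter (fun m : ℕ => ¬ ∃ D : Fin R → Fin l → Fin b,
        ε * (Pool.Agent.K7.H63.LN.Pl b Q J α N).card <
        |(Pool.Agent.K7.H63.LN.occ b D (Pool.Agent.K7.H63.LN.Pl b Q J α N)
          (fun j => ((f j).eval (m : ℤ) : ℤ) * α + y j) : ℝ) -
          (Pool.Agent.K7.H63.LN.Pl b Q J α N).card / ((b : ℝ) ^ l) ^ R|)).card : ℝ) := by
    linarith
  refine h5.trans ?_
  rw [Nat.cast_le]
  refine card_le_card fun m hm => ?_
  rw [mem_filter] at hm ⊢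
  refine ⟨hm.1, fun D => ?_⟩
  by_contra hcon
  exact hm.2 ⟨D, not_le.1 hcon⟩

end Pool.Agent.Results.MP_c8ecb2_nt.PolynomialMultiples
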