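import Pool.Agent.K7.H79.ND.PolF
import Pool.Agent.K7.H79.ND.Std

/-!
# The digit matrices of the values of polynomials with algebraic coefficients

Let `P_1, …, P_r` be real polynomials with algebraic coefficients such that no nontrivial integral
combination of them has only rational coefficients in the degrees `≥ D` (`D ≥ 1`; for instance
`P_j = α_j X ^ D` with `1, α_1, …, α_r` linearly independent over `ℚ`). For almost all `m ≤ M`, with a
power saving for the exceptional set, the tuple `(P_1(m) + R_1(m), …, P_r(m) + R_r(m))`, where the
`R_j` are arbitrary real polynomials of degree less than `D`, has all its digit matrices with the right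
frequencies in all windows inside the first `A log M` places, uniformly in the `R_j`, and the numbers of
occurrences obey the central limit theorem. The same holds for sums of such polynomials in `d` variables.

The exponential sums `∑ e (∑_j l_j P_j(m))` have integral frequencies `l` up to a power of `M`. The
coefficients of `∑_j l_j P_j` in high degrees may be rational; then they have bounded denominators, and
the inverse theorem for Weyl sums is applied to the last irrational coefficient, for which the subspace
theorem excludes good approximations.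
-/

set_option autoImplicit false

open Filter Topology Polynomial

namespace Pool.Agent.Results.MP_c8ecb2_nt.PolynomialValues

open Pool.Agent.K7.H79.ND

/-- `R` is in each of the variables `m t` separately (for fixed values of the others) a real polynomial
of degree less than `D`; for `D = 1` this means that `R` is constant -/
def LowDegree {d : ℕ} (D : ℕ) (R : (Fin d → ℕ) → ℝ) : Prop :=
  ∀ (t : Fin d) (m : Fin d → ℕ), ∃ p : ℝ[X], p.natDegree < D ∧
    ∀ n : ℕ, R (Function.update m t n) = p.eval (n : ℝ)

/-- the tuple of the values -/
noncomputable def values {r d : ℕ} (A : Fin r → Fin d → ℝ[X]) (R : Fin r → (Fin d → ℕ) → ℝ)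
    (m : Fin d → ℕ) : Fin r → ℝ := fun j => ∑ t, (A j t).eval (m t : ℝ) + R j m

open Classical in
/-- Let `A j t` (`j < r`, `t < d`) be real polynomials with algebraic coefficients, `D ≥ 1`, such that for
every nonzero integer vector `c` some polynomial `∑ j, c j * A j t` has an irrational coefficient in a
degree `≥ D`. Let `b j ≥ 2` be bases and `w` a number.

(1) For all `L` and `ε > 0` there are `c > 0` and `M₀` such that for all `M ≥ M₀` and all `R j` which are
in each variable separately polynomials of degree less than `D`, all but at most `M ^ (d - c)` of the `m`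
in `{1, …, M} ^ d` have the property that the tuple of the numbers `∑ t, A j t (m t) + R j m` satisfies
`NormalUpTo b w (L log M) (ε log M)`: all its tuples of words of at most `w` digits have the right
frequency in all the windows inside the first `L log M` places, up to `ε log M`.

(2) Let `F` be a function of the tuples of words of `w ≥ 1` digits with positive `variance`, let `R M` be
as in (1) for each `M`, let `N M → ∞` and `s M j + N M ≤ L log M` for all `j` and all large `M`. Then the
proportion of the `m` in `{1, …, M} ^ d` for which the sum of `F` over the `i < N M`, at the tuples of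
the words of `w` digits after the first `s M j + i` digits of the `j`-th number, is at most
`N M * mean + a * √(variance * N M)` tends, for every real `a`, to the value at `a` of the distribution
function of the standard normal distribution. -/
theorem result (r d D : ℕ) (hr : 1 ≤ r) (hD : 1 ≤ D) (A : Fin r → Fin d → ℝ[X])
    (halg : ∀ j t i, IsAlgebraic ℚ ((A j t).coeff i))
    (hind : ∀ c : Fin r → ℤ, c ≠ 0 → ∃ t i, D ≤ i ∧ Irrational (∑ j, (c j : ℝ) * (A j t).coeff i))
    (b : Fin r → ℕ) (hb : ∀ j, 2 ≤ b j) (w : ℕ) (L : ℝ) :
    (∀ ε : ℝ, 0 < ε → ∃ c : ℝ, 0 < c ∧ ∃ M₀ : ℕ, ∀ M : ℕ, M₀ ≤ M →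
      ∀ R : Fin r → (Fin d → ℕ) → ℝ, (∀ j, LowDegree D (R j)) →
        (((Fintype.piFinset fun _ : Fin d => Finset.Icc 1 M).filter (fun m : Fin d → ℕ =>
          ¬ NormalUpTo b w (L * Real.log M) (ε * Real.log M) (values A R m))).card : ℝ) ≤
            (M : ℝ) ^ (d - c)) ∧
    (1 ≤ w → ∀ F : (Fin r → ℕ) → ℝ, 0 < variance b w F →
      ∀ R : ℕ → Fin r → (Fin d → ℕ) → ℝ, (∀ M j, LowDegree D (R M j)) →
      ∀ (s : ℕ → Fin r → ℕ) (N : ℕ → ℕ), Tendsto N atTop atTop →
      (∀ᶠ M : ℕ in atTop, ∀ j, (s M j : ℝ) + N M ≤ L * Real.log M) → ∀ a : ℝ,
        Tendsto (fun M : ℕ => (((Fintype.piFinset fun _ : Fin d => Finset.Icc 1 M).filter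
          (fun m : Fin d → ℕ => ∑ i ∈ Finset.range (N M),
            F (fun j => word (b j) w (s M j + i) (values A (R M) m j)) - N M * mean b w F ≤
              a * √(variance b w F * N M))).card : ℝ) / (M : ℝ) ^ d) atTop
          (𝓝 ((ProbabilityTheory.gaussianReal 0 1).real (Set.Iic a)))) := by
  have hb1 : ∀ j, 1 ≤ b j := fun j => by have := hb j; omega
  constructor
  · intro ε hε
    obtain ⟨c, hc, M₀, h⟩ := count_normal (ι := Fin d → ℕ) hr hb (SP_prob A D)
      (fun a _ => good_pol hD A halg hind hb1 a) w L ε hε
    refine ⟨c, hc, max M₀ 1, fun M hM R hR => ?_⟩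
    have hM1 : 1 ≤ M := (le_max_right _ _).trans hM
    have hMp : (0 : ℝ) < M := by exact_mod_cast hM1
    have h1 := h M ((le_max_left _ _).trans hM) (Pool.Agent.Y933.KD.box d M) (pv A R) ⟨R, hR, rfl⟩
    rw [Pool.Agent.Y933.KD.card_box] at h1
    refine h1.trans (le_of_eq ?_)
    push_cast
    rw [← Real.rpow_natCast (M : ℝ) d, ← Real.rpow_add hMp]
    congr 1
  · intro hw F hF R hR s N hN hsN a
    have h1 := count_clt (ι := Fin d → ℕ) hr hb1 (SP_prob A D)
      (good_pol hD A halg hind hb1 0) hw F hF L (fun M => Pool.Agent.Y933.KD.box d M)
      (fun M => pv A (R M)) (Eventually.of_forall fun M => ⟨R M, hR M, rfl⟩) s N hN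
      (Eventually.of_forall fun M j => by rw [zero_mul]; exact Nat.cast_nonneg _) hsN a
    refine h1.congr' (Eventually.of_forall fun M => ?_)
    simp only [Pool.Agent.Y933.KD.card_box]
    push_cast
    rfl

end Pool.Agent.Results.MP_c8ecb2_nt.PolynomialValues
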